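import Pool.Agent.Helper16.CB.Defs

/-! Project CL (cyclic algebras of prime degree `l`): local conditions at the primes of a number
field, in terms of the tame symbol. -/

set_option autoImplicit false

namespace Pool.Agent.Helper3.CL

open NumberField Pool.Agent.Helper16.CB

/-- the tame symbol of `a, b` at the prime `q` is an `l`-th power: with the valuations `α, β` of
`a, b`, the element `(-1) ^ (α β) a ^ β b ^ ((l - 1) α)` is the `l`-th power of some `h` modulo
elements of higher valuation -/
def LC {R : Type*} [CommRing R] (l : ℕ) (q : Ideal R) (a b : R) : Prop :=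
  ∃ (α β : ℕ) (h : R), Val q a α ∧ Val q b β ∧
    (-1) ^ (α * β) * a ^ β * b ^ ((l - 1) * α) - h ^ l ∈ q ^ (l * (α * β) + 1)

/-- primes `p` of `K` at which `a, b` are harmless over a field with a primitive `l ^ J`-th root of
unity: `N p` is prime to `l` and not congruent to one modulo `l ^ J`, or the tame symbol is an
`l`-th power -/
def Harm {K : Type*} [Field K] [NumberField K] (l J : ℕ) (a b : 𝓞 K) (p : Ideal (𝓞 K)) : Prop :=
  (Nat.Coprime (Ideal.absNorm p) l ∧ ¬ Ideal.absNorm p ≡ 1 [MOD l ^ J]) ∨ LC l p a b

/-- `x, y` is a pair of elements of the algebra `A` over `F` with `x ^ l = a`, `y ^ l = b`,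
`x y = ζ y x` -/
structure Weyl {F A : Type*} [Field F] [Ring A] [Algebra F A] (l : ℕ) (ζ a b : F) (x y : A) :
    Prop where
  xpow : x ^ l = algebraMap F A a
  ypow : y ^ l = algebraMap F A b
  comm : x * y = ζ • (y * x)

/-- the element with the coordinates `c` -/
def elt {F A : Type*} [Field F] [Ring A] [Algebra F A] {l : ℕ} (c : Fin l → Fin l → F) (x y : A) :
    A :=
  ∑ i : Fin l, ∑ j : Fin l, c i j • (x ^ (i : ℕ) * y ^ (j : ℕ))

end Pool.Agent.Helper3.CL
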