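import Pool.Agent.Helper3.CL.Alg
import Pool.Agent.Helper8.CL.LocSub
import Pool.Agent.Helper17.CL.LcHarm

/-! Project CL: the algebraic block in terms of tame symbols. -/

set_option autoImplicit false

namespace Pool.Agent.Helper3.CL

open NumberField Polynomial IsDedekindDomain Pool.Agent.Helper18.CL

/-- **The algebraic block, LC form.**  There is one finite extension of `K` over which `b` is a norm
from the extension by an `l`-th root of `a` for all `a, b` in the ring of integers of `K` such that
at every prime `p` dividing `a b` the norm of `p` is prime to `l` and not congruent to one modulo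
`l ^ J`, or the tame symbol of `a, b` is an `l`-th power. -/
theorem algLC (K : Type) [Field K] [NumberField K] (l J : ℕ) (hl : l.Prime) (hJ : 1 ≤ J) :
    ∃ (L : Type) (_ : Field L) (_ : Algebra K L), FiniteDimensional K L ∧
      (∃ ζ : L, IsPrimitiveRoot ζ l) ∧ ∀ a b : 𝓞 K, a ≠ 0 → b ≠ 0 →
        (∀ p : Ideal (𝓞 K), p.IsPrime → p ≠ ⊥ → a * b ∈ p → Harm l J a b p) →
        IsNm l (algebraMap K L (a : K)) (algebraMap K L (b : K)) := by
  classical
  let A := AlgebraicClosure K
  have hne : NeZero ((l ^ J : ℕ) : A) := ⟨by exact_mod_cast pow_ne_zero J hl.ne_zero⟩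
  obtain ⟨ζ, hζ⟩ := HasEnoughRootsOfUnity.exists_primitiveRoot A (l ^ J)
  let L : IntermediateField K A := IntermediateField.adjoin K {ζ}
  have hζint : IsIntegral K ζ := Algebra.IsIntegral.isIntegral ζ
  have hLfin : FiniteDimensional K L := IntermediateField.adjoin.finiteDimensional hζint
  have : NumberField L := NumberField.of_module_finite K L
  let ζL : L := ⟨ζ, IntermediateField.mem_adjoin_simple_self K ζ⟩
  have hζL : IsPrimitiveRoot ζL (l ^ J) := by
    refine IsPrimitiveRoot.of_map_of_injective (f := algebraMap L A) ?_ ?_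
    · exact hζ
    · exact (algebraMap L A).injective
  have hζl : IsPrimitiveRoot (ζL ^ (l ^ (J - 1))) l := by
    refine hζL.pow (pow_pos hl.pos J) ?_
    rw [← pow_succ]
    congr 1
    omega
  obtain ⟨F, hF, hN⟩ := alg_one L hl hζl
    (fun a b _ _ v h => Pool.Agent.Helper8.CL.loc_sub hl hζl v h)
  have htower : IsScalarTower K L F := inferInstance
  have hfKF : FiniteDimensional K F := FiniteDimensional.trans K L F
  refine ⟨F, inferInstance, inferInstance, hfKF,
    ⟨algebraMap L F (ζL ^ (l ^ (J - 1))), hζl.map_of_injective (algebraMap L F).injective⟩, ?_⟩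
  intro a b ha hb hharm
  have hinj : Function.Injective (algebraMap (𝓞 K) (𝓞 L)) :=
    FaithfulSMul.algebraMap_injective (𝓞 K) (𝓞 L)
  have h0 : ∀ x : 𝓞 K, x ≠ 0 → algebraMap (𝓞 K) (𝓞 L) x ≠ 0 :=
    fun x hx h => hx (hinj (by rw [h, map_zero]))
  have h1 := hN _ _ (h0 a ha) (h0 b hb) (by
    intro q hq hq0 hab
    apply Pool.Agent.Helper17.CL.lc_of_harm hl hJ hζL ha hb hq hq0
    rw [← map_mul] at hab
    refine hharm _ (hq.comap _) ?_ hab
    intro h
    have hcomap : (a * b) ∈ q.comap (algebraMap (𝓞 K) (𝓞 L)) := hab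
    rw [h, Ideal.mem_bot] at hcomap
    exact mul_ne_zero ha hb hcomap)
  have e : ∀ x : K, algebraMap L F (algebraMap K L x) = algebraMap K F x := fun x =>
    (IsScalarTower.algebraMap_apply K L F x).symm
  rw [← e, ← e]
  exact h1

end Pool.Agent.Helper3.CL
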