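import Pool.Agent.Helper3.CL.SepL
import Pool.Agent.Helper3.CB.EndHDM
import Pool.Agent.Helper17.CL.NmIff
import Pool.Agent.Helper65.CB.Dom

/-! Project CL: potential density for fibre products of norm hypersurfaces of prime degrees from
harmless points of the base. -/

set_option autoImplicit false

namespace Pool.Agent.Helper3.CL

open MvPolynomial AlgebraicGeometry CategoryTheory Pool.Agent.Helper15 Pool.Agent.Helper18.CL
open Pool.Agent.Helper65.CB (DominatedOver)

/-- the coordinate ring of the fibre product over `Spec A` of the hypersurfaces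
`nf (a i) (x i) = b i`, `x i` of length `l i` -/
abbrev NormRing {A : Type} [CommRing A] {r : ℕ} (l : Fin r → ℕ) [∀ i, NeZero (l i)]
    (a b : Fin r → A) : Type :=
  MvPolynomial (Σ i, Fin (l i)) A ⧸ idL l a b

/-- **END2.** The fibre product over `Spec A` of the hypersurfaces `nf (a i) (x i) = b i` (norm
forms of prime degrees `l i`) is potentially dense if there are enough points `φ` of the base with a
property `P` which makes `b i` a norm over one finite extension. -/
theorem end_famL (K M : Type) [Field K] [NumberField K] [Field M] [NumberField M] [Algebra K M]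
    (A : Type) [CommRing A] [Algebra K A] {r : ℕ} (l : Fin r → ℕ) [∀ i, NeZero (l i)]
    (hl : ∀ i, (l i).Prime) (a b : Fin r → A) (P : Fin r → M → M → Prop)
    (halg : ∃ (L : Type) (_ : Field L) (_ : Algebra M L), FiniteDimensional M L ∧
      ∀ i, (∃ ζ : L, IsPrimitiveRoot ζ (l i)) ∧ ∀ x y : M, x ≠ 0 → y ≠ 0 → P i x y →
        IsNm (l i) (algebraMap M L x) (algebraMap M L y))
    (hd : ∀ f : A, f ≠ 0 → ∃ φ : A →ₐ[K] M, φ f ≠ 0 ∧
      ∀ i, φ (a i) ≠ 0 ∧ φ (b i) ≠ 0 ∧ P i (φ (a i)) (φ (b i))) :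
    PotentiallyDense K (Spec (CommRingCat.of (NormRing l a b)))
      (Spec.map (CommRingCat.ofHom (algebraMap K (NormRing l a b)))) := by
  obtain ⟨L, iL, iA, hfin, hL⟩ := halg
  let iKL : Algebra K L := ((algebraMap M L).comp (algebraMap K M)).toAlgebra
  have htower : IsScalarTower K M L := IsScalarTower.of_algebraMap_eq (fun x => rfl)
  have hKM : FiniteDimensional K M := inferInstance
  have hfKL : FiniteDimensional K L := FiniteDimensional.trans K M L
  have hchL : CharZero L := charZero_of_injective_algebraMap (algebraMap M L).injective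
  refine ⟨L, inferInstance, inferInstance, inferInstance, ?_⟩
  refine dense_ratPts_spec K L _
    (fun g hg => separateL (M := M) l hl (fun i => (hL i).1) a b (fun d hd0 => ?_) g hg)
  obtain ⟨φ, hφ, hP⟩ := hd d hd0
  refine ⟨φ, hφ, fun i => ⟨(hP i).1, (hP i).2.1, ?_⟩⟩
  exact (Pool.Agent.Helper17.CL.isNm_iff _ _).1
    ((hL i).2 _ _ (hP i).1 (hP i).2.1 (hP i).2.2)

/-- **END2** for schemes dominated by the fibre product. -/
theorem end_famL_dom (K M : Type) [Field K] [NumberField K] [Field M] [NumberField M] [Algebra K M]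
    (A : Type) [CommRing A] [Algebra K A] {r : ℕ} (l : Fin r → ℕ) [∀ i, NeZero (l i)]
    (hl : ∀ i, (l i).Prime) (a b : Fin r → A) (P : Fin r → M → M → Prop)
    (halg : ∃ (L : Type) (_ : Field L) (_ : Algebra M L), FiniteDimensional M L ∧
      ∀ i, (∃ ζ : L, IsPrimitiveRoot ζ (l i)) ∧ ∀ x y : M, x ≠ 0 → y ≠ 0 → P i x y →
        IsNm (l i) (algebraMap M L x) (algebraMap M L y))
    (hd : ∀ f : A, f ≠ 0 → ∃ φ : A →ₐ[K] M, φ f ≠ 0 ∧
      ∀ i, φ (a i) ≠ 0 ∧ φ (b i) ≠ 0 ∧ P i (φ (a i)) (φ (b i)))
    (Y : Scheme.{0}) (s : Y ⟶ Spec (CommRingCat.of K))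
    (hY : DominatedOver K Y (Spec (CommRingCat.of (NormRing l a b))) s
      (Spec.map (CommRingCat.ofHom (algebraMap K (NormRing l a b))))) :
    PotentiallyDense K Y s :=
  Pool.Agent.Helper65.CB.PotentiallyDense.of_dominated hY (end_famL K M A l hl a b P halg hd)

end Pool.Agent.Helper3.CL
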