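import Pool.Agent.Helper3.CL.Std
import Pool.Agent.Helper98.CL.Fr
import Pool.Agent.Helper69.CL.Mink
import Pool.Agent.Helper16.CL.GlobSub
import Pool.Agent.Helper16.CL.Arch
import Pool.Agent.Helper28.CL.Bal
import Pool.Agent.Helper45.CL.Int

/-! Project CL: the algebraic block in terms of tame symbols, over one number field. -/

set_option autoImplicit false

namespace Pool.Agent.Helper3.CL

open NumberField Polynomial IsDedekindDomain Pool.Agent.Helper69.SB Pool.Agent.Helper18.CL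
open Pool.Agent.Helper16.CB (Bal Val)
open Pool.Agent.Helper16.CL (LocSub glob_sub_of)

/-- the characteristic polynomial over the base field -/
noncomputable def cpL {L : Type*} [Field L] {l : ℕ} [NeZero l] (ζ a b : L)
    (z : Fin l → Fin l → L) : L[X] :=
  ∑ k ∈ Finset.range (l + 1), C ((Ek ζ a z k).eval b) * X ^ k

theorem coeff_cpL {L : Type*} [Field L] {l : ℕ} [NeZero l] (ζ a b : L) (z : Fin l → Fin l → L)
    (k : ℕ) : (cpL ζ a b z).coeff k = if k ≤ l then (Ek ζ a z k).eval b else 0 := by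
  unfold cpL
  simp only [finsetSum_coeff, coeff_C_mul, coeff_X_pow, mul_ite, mul_one, mul_zero]
  rw [Finset.sum_ite_eq (Finset.range (l + 1)) k (fun k' => (Ek ζ a z k').eval b)]
  simp only [Finset.mem_range, Nat.lt_succ_iff]

theorem charpoly_eq {L S : Type*} [Field L] [CommRing S] [Nontrivial S] [Algebra L S] {l : ℕ}
    [NeZero l] {ζ a b : L} (hζ : IsPrimitiveRoot ζ l) (ha : a ≠ 0) {β : S}
    (hβ : β ^ l = algebraMap L S b) (z : Fin l → Fin l → L) :
    (m1 (algebraMap L S ζ) (algebraMap L S a) β (fun r s => algebraMap L S (z r s))).charpoly =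
      (cpL ζ a b z).map (algebraMap L S) := by
  ext k
  rw [coeff_map, coeff_cpL]
  by_cases hk : k ≤ l
  · rw [if_pos hk, coeff_m1' hζ ha β z k, hβ, aeval_algebraMap_apply]
    rfl
  · rw [if_neg hk, map_zero]
    apply coeff_eq_zero_of_natDegree_lt
    have h1 : natDegree (m1 (algebraMap L S ζ) (algebraMap L S a) β
        (fun r s => algebraMap L S (z r s))).charpoly = l := by
      rw [Matrix.charpoly_natDegree_eq_dim, Fintype.card_fin]
    omega

theorem cpL_facts {L : Type*} [Field L] {l : ℕ} [NeZero l] {ζ a b : L}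
    (hζ : IsPrimitiveRoot ζ l) (ha : a ≠ 0) (z : Fin l → Fin l → L) :
    (cpL ζ a b z).Monic ∧ (cpL ζ a b z).natDegree = l := by
  obtain ⟨β, hβ⟩ := IsAlgClosed.exists_pow_nat_eq (algebraMap L (AlgebraicClosure L) b)
    (Nat.pos_of_ne_zero (NeZero.ne l))
  have h1 := charpoly_eq hζ ha hβ z
  have hinj : Function.Injective (algebraMap L (AlgebraicClosure L)) :=
    (algebraMap L (AlgebraicClosure L)).injective
  constructor
  · apply monic_of_injective hinj
    rw [← h1]
    exact Matrix.charpoly_monic _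
  · have h2 := congrArg natDegree h1
    rw [Matrix.charpoly_natDegree_eq_dim, Fintype.card_fin, natDegree_map_eq_of_injective hinj]
      at h2
    exact h2.symm

/-- eigenvectors and polynomials -/
theorem aeval_mulVec {L Ω ι : Type*} [Field L] [Field Ω] [Algebra L Ω] [Fintype ι] [DecidableEq ι]
    {M : Matrix ι ι Ω} {lam : Ω} {f : ι → Ω} (h : M.mulVec f = lam • f) (p : L[X]) :
    (aeval M p).mulVec f = (aeval lam p) • f := by
  have hpow : ∀ n : ℕ, (M ^ n).mulVec f = lam ^ n • f := by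
    intro n
    induction n with
    | zero => simp
    | succ n ih =>
      rw [pow_succ, ← Matrix.mulVec_mulVec, h, Matrix.mulVec_smul, ih, smul_smul, pow_succ']
  induction p using Polynomial.induction_on' with
  | add p q hp hq => rw [map_add, map_add, Matrix.add_mulVec, hp, hq, add_smul]
  | monomial n c =>
    rw [aeval_monomial, aeval_monomial, ← Algebra.smul_def, ← Algebra.smul_def,
      Matrix.smul_mulVec, hpow, smul_assoc]

/-- degree over `ℚ` -/
theorem natDegree_le_of_root {L Ω : Type} [Field L] [NumberField L] [Field Ω] [CharZero Ω]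
    [Algebra L Ω] {g : L[X]} (hg : g.Monic) {x : Ω} (hx : aeval x g = 0) :
    (minpoly ℚ x).natDegree ≤ Module.finrank ℚ L * g.natDegree := by
  have hint : IsIntegral L x := ⟨g, hg, hx⟩
  have h1 : (minpoly L x).natDegree ≤ g.natDegree :=
    natDegree_le_of_dvd (minpoly.dvd L x hx) hg.ne_zero
  have hfin : FiniteDimensional L (IntermediateField.adjoin L {x}) :=
    IntermediateField.adjoin.finiteDimensional hint
  have htower : IsScalarTower ℚ L (IntermediateField.adjoin L {x}) := inferInstance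
  have hfinQ : FiniteDimensional ℚ (IntermediateField.adjoin L {x}) :=
    FiniteDimensional.trans ℚ L _
  have h2 : (minpoly ℚ (IntermediateField.AdjoinSimple.gen L x)).natDegree ≤
      Module.finrank ℚ (IntermediateField.adjoin L {x}) := minpoly.natDegree_le _
  have h3 : minpoly ℚ (IntermediateField.AdjoinSimple.gen L x) = minpoly ℚ x := by
    have h4 := minpoly.algebraMap_eq (A := ℚ)
      (B' := Ω) (algebraMap (IntermediateField.adjoin L {x}) Ω).injective
      (IntermediateField.AdjoinSimple.gen L x)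
    rw [IntermediateField.AdjoinSimple.algebraMap_gen] at h4
    exact h4.symm
  rw [h3, ← Module.finrank_mul_finrank ℚ L, IntermediateField.adjoin.finrank hint] at h2
  exact h2.trans (Nat.mul_le_mul_left _ h1)

/-- the algebraic block over one number field with the tame symbols -/
theorem alg_one (L : Type) [Field L] [NumberField L] {l : ℕ} (hl : l.Prime) {ζ : L}
    (hζ : IsPrimitiveRoot ζ l)
    (loc : ∀ a b : 𝓞 L, a ≠ 0 → b ≠ 0 → ∀ v : HeightOneSpectrum (𝓞 L), LC l v.asIdeal a b →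
      LocSub l ζ a b (fun _ _ _ v t => IntAt v t) v) :
    ∃ F : IntermediateField L (AlgebraicClosure L), FiniteDimensional L F ∧
      ∀ a b : 𝓞 L, a ≠ 0 → b ≠ 0 →
        (∀ q : Ideal (𝓞 L), q.IsPrime → q ≠ ⊥ → a * b ∈ q → LC l q a b) →
        IsNm l (algebraMap L F (a : L)) (algebraMap L F (b : L)) := by
  classical
  have hne : NeZero l := ⟨hl.pos.ne'⟩
  set Ω := AlgebraicClosure L
  obtain ⟨c, hc, hbal⟩ := Pool.Agent.Helper28.CL.exists_bal L l hl.pos
  obtain ⟨C, hC, hmink⟩ := Pool.Agent.Helper69.CL.mink L hl hc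
  have halgQ : Algebra.IsAlgebraic ℚ Ω := by
    have : Algebra.IsAlgebraic ℚ L := inferInstance
    exact Algebra.IsAlgebraic.trans ℚ L Ω
  set B : ℝ := ∑ i : Fin l, ∑ j : Fin l, C with hB
  have hfin := Pool.Agent.Helper45.CL.fin_set Ω (Module.finrank ℚ L * l) B
  set S : Set Ω := {x : Ω | IsIntegral ℤ x ∧ (minpoly ℚ x).natDegree ≤ Module.finrank ℚ L * l ∧
    ∀ ψ : Ω →+* ℂ, ‖ψ x‖ ≤ B} with hS
  have hSF : Finite S := hfin
  refine ⟨IntermediateField.adjoin L S,
    IntermediateField.finiteDimensional_adjoin (fun x _ => Algebra.IsIntegral.isIntegral x), ?_⟩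
  intro a b ha hb hlc
  obtain ⟨η, hη, hBη, -⟩ := hbal a ha
  obtain ⟨θ, hθ, hBθ, -⟩ := hbal b hb
  obtain ⟨a', ha'⟩ : ∃ a', a' = a * η ^ l := ⟨_, rfl⟩
  obtain ⟨b', hb'⟩ : ∃ b', b' = b * θ ^ l := ⟨_, rfl⟩
  have ha0 : a' ≠ 0 := by rw [ha']; exact mul_ne_zero ha (pow_ne_zero l hη)
  have hb0 : b' ≠ 0 := by rw [hb']; exact mul_ne_zero hb (pow_ne_zero l hθ)
  rw [← ha'] at hBη
  rw [← hb'] at hBθ
  obtain ⟨G, hG0, hG1, hG2⟩ := glob_sub_of (l := l) (ζ := ζ) ha0 hb0
    (fun _ _ _ v t => IntAt v t) (fun v hv => loc a' b' ha0 hb0 v hv) (by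
      intro q hq hq0 _
      rw [ha', hb']
      refine Pool.Agent.Helper16.CL.lc_mul hl.pos hq hq0 hη hθ ?_
      by_cases hab : a * b ∈ q
      · exact hlc q hq hq0 hab
      · exact Pool.Agent.Helper16.CL.lc_of_notMem (fun h => hab (q.mul_mem_right _ h))
          (fun h => hab (q.mul_mem_left _ h)))
  obtain ⟨d, hdG, hd0, hd00, hdb⟩ := hmink a' b' ha0 hb0 hBη hBθ G hG0 hG1
  have haL : (a' : L) ≠ 0 := by simpa using ha0
  have hbL : (b' : L) ≠ 0 := by simpa using hb0
  -- the matrices over `Ω`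
  obtain ⟨α, hα⟩ := IsAlgClosed.exists_pow_nat_eq (algebraMap L Ω (a' : L)⁻¹) hl.pos
  obtain ⟨β, hβ⟩ := IsAlgClosed.exists_pow_nat_eq (algebraMap L Ω (b' : L)⁻¹) hl.pos
  have hα0 : α ≠ 0 := by
    rintro rfl
    rw [zero_pow hl.ne_zero, eq_comm, map_eq_zero] at hα
    exact inv_ne_zero haL hα
  have hζ1 : ζ ^ l = 1 := hζ.pow_eq_one
  have hζ0 : ζ ≠ 0 := hζ.ne_zero hl.ne_zero
  obtain ⟨cc, hcc⟩ : ∃ cc : Fin l → Fin l → L, cc = fun i j => ((d i j : 𝓞 L) : L) := ⟨_, rfl⟩
  set z : Fin l → Fin l → L := fun i j => ζ ^ ((i : ℕ) * (j : ℕ)) * cc i j with hz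
  have hz0 : z ≠ 0 := by
    intro h
    apply hd0
    funext i j
    have h1 : z i j = 0 := by rw [h]; rfl
    rw [hz] at h1
    simp only at h1
    rcases mul_eq_zero.1 h1 with h2 | h2
    · exact absurd h2 (pow_ne_zero _ hζ0)
    · rw [hcc] at h2
      simpa using h2
  have hz00 : z 0 0 = 0 := by
    have h1 : d 0 0 = 0 := hd00 0 0 (by simp) (by simp)
    rw [hz]
    simp only
    rw [hcc]
    simp [h1]
  -- the characteristic polynomial
  set g : L[X] := cpL ζ (a' : L)⁻¹ (b' : L)⁻¹ z with hg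
  obtain ⟨hgm, hgd⟩ := cpL_facts (b := (b' : L)⁻¹) hζ (inv_ne_zero haL) z
  obtain ⟨lam, hlam⟩ := IsAlgClosed.exists_root (g.map (algebraMap L Ω)) (by
    rw [degree_map, degree_eq_natDegree hgm.ne_zero, hgd]
    exact_mod_cast hl.ne_zero)
  have hW := weyl_std (F := L) (E := Ω) (ζ := ζ) (a := (a' : L)⁻¹) (b := (b' : L)⁻¹) hζ1 hα hβ
  set M : Matrix (Fin l) (Fin l) Ω :=
    elt cc (α • Pm Ω l) (β • Dm (algebraMap L Ω ζ) l) with hM
  have hMmt : M = Pool.Agent.Helper69.SB.mt (algebraMap L Ω ζ) α β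
      (fun i j => algebraMap L Ω (z i j)) := by
    rw [hM, elt_std hζ1]
    congr 1
    funext i j
    rw [hz]
    simp only [map_mul, map_pow]
  have hchar : M.charpoly = g.map (algebraMap L Ω) := by
    rw [hMmt, ← m1_mt _ _ _ hα0, hα]
    exact charpoly_eq hζ (inv_ne_zero haL) hβ z
  -- an eigenvector
  obtain ⟨f, hf0, hf⟩ : ∃ f : Fin l → Ω, f ≠ 0 ∧ M.mulVec f = lam • f := by
    have h1 : (Matrix.scalar (Fin l) lam - M).det = 0 := by
      rw [← Matrix.eval_charpoly, hchar]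
      exact hlam
    obtain ⟨f, hf0, hf⟩ := Matrix.exists_mulVec_eq_zero_iff.2 h1
    refine ⟨f, hf0, ?_⟩
    rw [Matrix.sub_mulVec, sub_eq_zero] at hf
    rw [← hf]
    ext i
    simp [Matrix.scalar, Matrix.mulVec_diagonal]
  -- the eigenvalue is integral
  have hint : IsIntegral ℤ lam := by
    refine Pool.Agent.Helper45.CL.integral_of_intAt (L := L) fun v => ?_
    have h1 := hG2 d hdG (Matrix (Fin l) (Fin l) Ω) _ _ hW v
    rw [← hcc] at h1
    obtain ⟨p, hp1, hp2, hp3⟩ := h1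
    refine ⟨p, hp1, hp2, ?_⟩
    have h2 := aeval_mulVec hf p
    have h3 : aeval M p = 0 := hp3
    rw [h3, Matrix.zero_mulVec] at h2
    rcases smul_eq_zero.1 h2.symm with h4 | h4
    · exact h4
    · exact absurd h4 hf0
  -- its degree
  have hdeg : (minpoly ℚ lam).natDegree ≤ Module.finrank ℚ L * l := by
    have h1 : aeval lam g = 0 := by
      have h2 : eval lam (g.map (algebraMap L Ω)) = 0 := hlam
      rwa [eval_map, ← aeval_def] at h2
    have h3 := natDegree_le_of_root hgm h1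
    rwa [hgd] at h3
  -- its absolute values
  have harch : ∀ ψ : Ω →+* ℂ, ‖ψ lam‖ ≤ B := by
    intro ψ
    let iLC : Algebra L ℂ := (ψ.comp (algebraMap L Ω)).toAlgebra
    have hψ : ∀ x : L, algebraMap L ℂ x = ψ (algebraMap L Ω x) := fun x => rfl
    set φ : L →+* ℂ := ψ.comp (algebraMap L Ω) with hφ
    have hα' : (ψ α) ^ l = algebraMap ℂ ℂ (φ (a' : L))⁻¹ := by
      rw [← map_pow, hα, hφ, map_inv₀, map_inv₀]
      rfl
    have hβ' : (ψ β) ^ l = algebraMap ℂ ℂ (φ (b' : L))⁻¹ := by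
      rw [← map_pow, hβ, hφ, map_inv₀, map_inv₀]
      rfl
    have hζψ : IsPrimitiveRoot (φ ζ) l := hζ.map_of_injective φ.injective
    have hW' := weyl_std (F := ℂ) (E := ℂ) (ζ := φ ζ) hζψ.pow_eq_one hα' hβ'
    have hM' : elt (fun i j => φ (cc i j)) (ψ α • Pm ℂ l)
        (ψ β • Dm (algebraMap ℂ ℂ (φ ζ)) l) = M.map ψ := by
      rw [elt_std hζψ.pow_eq_one, hMmt]
      ext p q
      rw [Matrix.map_apply]
      unfold Pool.Agent.Helper69.SB.mt xr
      simp only [map_mul, map_pow, map_sum]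
      congr 1
      refine Finset.sum_congr rfl fun s _ => ?_
      congr 1
      rw [hz]
      simp only [map_mul, map_pow]
      rfl
    have hf' : (M.map ψ).mulVec (fun i => ψ (f i)) = (ψ lam) • (fun i => ψ (f i)) := by
      funext i
      have h1 := congrFun hf i
      have h2 := congrArg ψ h1
      simp only [Matrix.mulVec, dotProduct, map_sum, map_mul, Pi.smul_apply, smul_eq_mul,
        Matrix.map_apply] at h2 ⊢
      exact h2
    have hf0' : (fun i => ψ (f i)) ≠ 0 := by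
      intro h
      apply hf0
      funext i
      have h1 := congrFun h i
      simpa using h1
    rw [← hM'] at hf'
    have haφ : φ (a' : L) ≠ 0 := by rwa [Ne, map_eq_zero]
    have hbφ : φ (b' : L) ≠ 0 := by rwa [Ne, map_eq_zero]
    have h1 := Pool.Agent.Helper16.CL.arch hl.pos hζψ (inv_ne_zero haφ) (inv_ne_zero hbφ) hW' _
      hf0' hf'
    refine h1.trans ?_
    rw [hB]
    refine Finset.sum_le_sum fun i _ => Finset.sum_le_sum fun j _ => ?_
    have h2 := hdb φ i j
    have hA : 0 < ‖φ (a' : L)‖ ^ (1 / (l : ℝ)) := Real.rpow_pos_of_pos (norm_pos_iff.2 haφ) _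
    have hBB : 0 < ‖φ (b' : L)‖ ^ (1 / (l : ℝ)) := Real.rpow_pos_of_pos (norm_pos_iff.2 hbφ) _
    have hinv : ∀ x : ℂ, ‖x⁻¹‖ ^ (1 / (l : ℝ)) = (‖x‖ ^ (1 / (l : ℝ)))⁻¹ := by
      intro x
      rw [norm_inv, Real.inv_rpow (norm_nonneg _)]
    rw [hinv, hinv]
    have h3 : ‖φ (cc i j)‖ ≤ C * (‖φ (a' : L)‖ ^ (1 / (l : ℝ))) ^ (i : ℕ) *
        (‖φ (b' : L)‖ ^ (1 / (l : ℝ))) ^ (j : ℕ) := by
      rw [hcc]
      exact h2
    calc ‖φ (cc i j)‖ * ((‖φ (a' : L)‖ ^ (1 / (l : ℝ)))⁻¹) ^ (i : ℕ) *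
          ((‖φ (b' : L)‖ ^ (1 / (l : ℝ)))⁻¹) ^ (j : ℕ)
        ≤ (C * (‖φ (a' : L)‖ ^ (1 / (l : ℝ))) ^ (i : ℕ) *
          (‖φ (b' : L)‖ ^ (1 / (l : ℝ))) ^ (j : ℕ)) *
            ((‖φ (a' : L)‖ ^ (1 / (l : ℝ)))⁻¹) ^ (i : ℕ) *
          ((‖φ (b' : L)‖ ^ (1 / (l : ℝ)))⁻¹) ^ (j : ℕ) := by gcongr
      _ = C := by
        rw [inv_pow, inv_pow]
        field_simp
  have hlamS : lam ∈ S := ⟨hint, hdeg, harch⟩
  -- the field
  set F := IntermediateField.adjoin L S
  have hlamF : lam ∈ F := IntermediateField.subset_adjoin L S hlamS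
  have hchF : CharZero F := charZero_of_injective_algebraMap (algebraMap L F).injective
  have hζF : IsPrimitiveRoot (algebraMap L F ζ) l := hζ.map_of_injective (algebraMap L F).injective
  have haF : algebraMap L F (a' : L)⁻¹ ≠ 0 := by
    rw [Ne, map_eq_zero]
    exact inv_ne_zero haL
  have hbF : algebraMap L F (b' : L)⁻¹ ≠ 0 := by
    rw [Ne, map_eq_zero]
    exact inv_ne_zero hbL
  have hzF : (fun i j => algebraMap L F (z i j)) ≠ 0 := by
    intro h
    apply hz0
    funext i j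
    have h1 := congrFun (congrFun h i) j
    simpa using h1
  have hN : IsNm l (algebraMap L F (a' : L)⁻¹) (algebraMap L F (b' : L)⁻¹) := by
    refine Pool.Agent.Helper98.CL.r5 F l hl _ hζF _ _ haF hbF (fun i j => algebraMap L F (z i j))
      hzF (by simp only [hz00, map_zero]) ⟨lam, hlamF⟩ ?_
    intro E _ _ β' hβ'
    let iLE : Algebra L E := ((algebraMap F E).comp (algebraMap L F)).toAlgebra
    have h1 : ∀ x : L, algebraMap F E (algebraMap L F x) = algebraMap L E x := fun x => rfl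
    simp only [h1]
    rw [h1] at hβ'
    rw [charpoly_eq hζ (inv_ne_zero haL) hβ' z, IsRoot.def, eval_map, ← hg]
    have h2 : eval₂ (algebraMap L F) (⟨lam, hlamF⟩ : F) g = 0 := by
      apply (algebraMap F Ω).injective
      rw [map_zero, hom_eval₂]
      have h3 : eval lam (g.map (algebraMap L Ω)) = 0 := hlam
      rw [eval_map] at h3
      exact h3
    have h4 := congrArg (algebraMap F E) h2
    rw [hom_eval₂, map_zero] at h4
    exact h4
  have hlne : l ≠ 0 := hl.ne_zero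
  -- back to `a`, `b`
  have hinvinv : ∀ x : L, (algebraMap L F x⁻¹)⁻¹ = algebraMap L F x := by
    intro x
    rw [map_inv₀, inv_inv]
  have hN1 := Pool.Agent.Helper98.CL.isNm_inv hlne hbF hN
  rw [hinvinv] at hN1
  have hbF' : algebraMap L F (b' : L) ≠ 0 := by rwa [Ne, map_eq_zero]
  have haF' : algebraMap L F (a' : L) ≠ 0 := by rwa [Ne, map_eq_zero]
  have hN2 := Pool.Agent.Helper98.CL.isNm_symm F l hl _ hζF _ _ haF hbF' hN1
  have hN3 := Pool.Agent.Helper98.CL.isNm_inv hlne haF hN2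
  rw [hinvinv] at hN3
  -- remove `η`
  have hηL : (η : L) ≠ 0 := by simpa using hη
  have hθL : (θ : L) ≠ 0 := by simpa using hθ
  have e1 : algebraMap L F (a' : L) * (algebraMap L F (η : L)⁻¹) ^ l = algebraMap L F (a : L) := by
    rw [← map_pow, ← map_mul, ha']
    congr 1
    push_cast
    rw [mul_assoc, ← mul_pow, mul_inv_cancel₀ hηL, one_pow, mul_one]
  have e2 : algebraMap L F (b' : L) * (algebraMap L F (θ : L)⁻¹) ^ l = algebraMap L F (b : L) := by
    rw [← map_pow, ← map_mul, hb']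
    congr 1
    push_cast
    rw [mul_assoc, ← mul_pow, mul_inv_cancel₀ hθL, one_pow, mul_one]
  have hN4 := Pool.Agent.Helper98.CL.isNm_mul hlne hN3
    (Pool.Agent.Helper98.CL.isNm_pow hlne (algebraMap L F (b' : L)) (algebraMap L F (η : L)⁻¹))
  rw [e1] at hN4
  have haFa : algebraMap L F (a : L) ≠ 0 := by
    rw [Ne, map_eq_zero]
    simpa using ha
  have hN5 := Pool.Agent.Helper98.CL.isNm_symm F l hl _ hζF _ _ hbF' haFa hN4
  have hN6 := Pool.Agent.Helper98.CL.isNm_mul hlne hN5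
    (Pool.Agent.Helper98.CL.isNm_pow hlne (algebraMap L F (a : L)) (algebraMap L F (θ : L)⁻¹))
  rw [e2] at hN6
  exact hN6

end Pool.Agent.Helper3.CL
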