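import Pool.Agent.Helper3.CL.NFL
import Pool.Agent.Helper79.CL.DenseFibre

/-! Project CL: the reduced monomials are linearly independent on a fibre. -/

set_option autoImplicit false

namespace Pool.Agent.Helper3.CL

open MvPolynomial Pool.Agent.Helper18.CL

/-- the coefficient of `X 0 ^ n` in the equation of the fibre -/
theorem degreeOf_eqn {M : Type} [Field M] {n : ℕ} [NeZero n] (a b : M) :
    n ≤ degreeOf 0 (nf (C a) (fun j => (X j : MvPolynomial (Fin n) M)) - C b) := by
  classical
  have h1 : nf (C a) (fun j => (X j : MvPolynomial (Fin n) M)) - X 0 ^ n ∈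
      lowL M (fun j : Fin n => j) := nf_sub_mem (y := fun j : Fin n => j) (fun _ _ h => h) a
  have h2 : ∀ p ∈ lowL M (fun j : Fin n => j), coeff (Finsupp.single 0 n) p = 0 := by
    intro p hp
    induction hp using Submodule.span_induction with
    | mem x hx =>
      obtain ⟨u, hu, -, rfl⟩ := hx
      rw [coeff_monomial, if_neg]
      rintro rfl
      simp at hu
    | zero => simp
    | add x y _ _ hx hy => rw [coeff_add, hx, hy, add_zero]
    | smul c x _ hx => rw [coeff_smul, hx, smul_zero]
  have hn : 0 < n := Nat.pos_of_ne_zero (NeZero.ne n)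
  have h3 : coeff (Finsupp.single 0 n)
      (nf (C a) (fun j => (X j : MvPolynomial (Fin n) M)) - C b) = 1 := by
    have h4 := h2 _ h1
    rw [coeff_sub, sub_eq_zero] at h4
    rw [coeff_sub, h4, coeff_C, if_neg, sub_zero, X_pow_eq_monomial, coeff_monomial, if_pos rfl]
    intro h5
    have := DFunLike.congr_fun h5 0
    simp at this
    omega
  have h5 : Finsupp.single 0 n ∈
      (nf (C a) (fun j => (X j : MvPolynomial (Fin n) M)) - C b).support := by
    rw [mem_support_iff, h3]
    exact one_ne_zero
  have h6 := monomial_le_degreeOf 0 h5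
  simpa using h6

/-- reduced monomials are linearly independent on a fibre -/
theorem fibre_indep (M : Type) [Field M] [CharZero M] (l : ℕ) [NeZero l] (hl : l.Prime) (ζ : M)
    (hζ : IsPrimitiveRoot ζ l) (a b : M) (ha : a ≠ 0) (hb : b ≠ 0)
    (hx : ∃ x : Fin l → M, nf a x = b) (t : Finset (Fin l →₀ ℕ)) (c : (Fin l →₀ ℕ) → M)
    (ht : ∀ e ∈ t, e 0 < l)
    (h0 : ∀ x : {x : Fin l → M // nf a x = b}, ∑ e ∈ t, c e * ∏ j, x.1 j ^ e j = 0) :
    ∀ e ∈ t, c e = 0 := by
  classical
  set G : MvPolynomial (Fin l) M := ∑ e ∈ t, monomial e (c e) with hG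
  have hcoeff : ∀ e, coeff e G = if e ∈ t then c e else 0 := by
    intro e
    rw [hG, coeff_sum]
    simp only [coeff_monomial]
    rw [Finset.sum_ite_eq' t e]
  have heval : ∀ x : Fin l → M, nf a x = b → eval x G = 0 := by
    intro x hx
    rw [hG, map_sum, ← h0 ⟨x, hx⟩]
    refine Finset.sum_congr rfl fun e _ => ?_
    rw [eval_monomial, Finsupp.prod_fintype _ _ (fun i => by simp)]
  have hmem := Pool.Agent.Helper79.CL.dense_fibre M l hl ζ hζ a b ha hb hx G heval
  rw [Ideal.mem_span_singleton] at hmem
  obtain ⟨Q, hQ⟩ := hmem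
  have hl0 : 0 < l := hl.pos
  have hG0 : G = 0 := by
    by_contra hne
    have hQ0 : Q ≠ 0 := by
      rintro rfl
      rw [mul_zero] at hQ
      exact hne hQ
    have hf0 : nf (C a) (fun j => (X j : MvPolynomial (Fin l) M)) - C b ≠ 0 := by
      intro h
      rw [h, zero_mul] at hQ
      exact hne hQ
    have h1 : l ≤ degreeOf 0 G := by
      rw [hQ, degreeOf_mul_eq hf0 hQ0]
      exact (degreeOf_eqn a b).trans (Nat.le_add_right _ _)
    have h2 : degreeOf 0 G < l := by
      rw [degreeOf_lt_iff hl0]
      intro e he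
      rw [mem_support_iff, hcoeff] at he
      by_cases h3 : e ∈ t
      · exact ht e h3
      · rw [if_neg h3] at he
        exact absurd rfl he
    omega
  intro e he
  have := hcoeff e
  rw [hG0, coeff_zero, if_pos he] at this
  exact this.symm

end Pool.Agent.Helper3.CL
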