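import Pool.Agent.Helper3.CL.IntDef

/-! Frames of the algebraic block of project CL (cyclic algebras of prime degree), LC form. -/

set_option autoImplicit false

namespace Pool.Agent.Helper3.CL

open NumberField Pool.Agent.Helper16.CB IsDedekindDomain

/-- B1a -/
theorem Weyl.pow_comm {F A : Type*} [Field F] [Ring A] [Algebra F A] {l : ℕ} {ζ a b : F}
    {x y : A} (h : Weyl l ζ a b x y) (hζ : ζ ≠ 0) (i j : ℕ) :
    x ^ i * y ^ j = ζ ^ (i * j) • (y ^ j * x ^ i) := by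
  sorry

/-- B1b: the product of two monomials. -/
theorem Weyl.mono_mul {F A : Type*} [Field F] [Ring A] [Algebra F A] {l : ℕ} {ζ a b : F}
    {x y : A} (h : Weyl l ζ a b x y) (hζ : ζ ≠ 0) (i j k m : ℕ) :
    x ^ i * y ^ j * (x ^ k * y ^ m) = (ζ⁻¹) ^ (j * k) • (x ^ (i + k) * y ^ (j + m)) := by
  sorry

/-- B1c: the `l`-th power of a monomial. -/
theorem Weyl.mono_pow {F A : Type*} [Field F] [Ring A] [Algebra F A] {l : ℕ} (hl : l.Prime)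
    {ζ a b : F} (hζ : IsPrimitiveRoot ζ l) {x y : A} (h : Weyl l ζ a b x y) (i j : ℕ) :
    (x ^ i * y ^ j) ^ l = algebraMap F A ((-1) ^ ((l - 1) * (i * j)) * a ^ i * b ^ j) := by
  sorry

/-- B2: the order generated by `g = Y (w - 1)`, `z = Y⁻¹` and `w` where `w Y = ζ Y w`: it is
spanned by the `g ^ s w ^ r` and the `z ^ s w ^ r` with `s, r < l`. -/
theorem ord_integral {R A : Type*} [CommRing R] [Ring A] [Algebra R A] {l : ℕ} (hl : 0 < l)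
    {ζ ζ' : R} (hζ : ζ * ζ' = 1) {g z w : A} (hwg : w * g = ζ • (g * w))
    (hzw : z * w = ζ • (w * z)) (hzg : z * g = w - 1) (hgz : g * z = ζ' • w - 1) {r₁ r₂ r₃ : R}
    (hw : w ^ l = algebraMap R A r₁) (hg : g ^ l = algebraMap R A r₂)
    (hz : z ^ l = algebraMap R A r₃) {t : A} (ht : t ∈ Algebra.adjoin R {g, z, w}) :
    IsIntegral R t := by
  sorry

/-- B3: local subgroups.  `w = h x ^ β y ^ ((l - 1) α)`, `Y = π ^ e x ^ k y ^ m` with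
`k α + m β = 1 + l e`; for `l ∣ α, β` the conditions are `c i j ∈ q ^ ((i α + j β) / l)`. -/
theorem loc_sub {L : Type} [Field L] [NumberField L] {l : ℕ} (hl : l.Prime) {ζ : L}
    (hζ : IsPrimitiveRoot ζ l) {a b : 𝓞 L} (ha : a ≠ 0) (hb : b ≠ 0)
    (v : HeightOneSpectrum (𝓞 L)) (h : LC l v.asIdeal a b) :
    ∃ (α β : ℕ) (G : AddSubgroup (Fin l → Fin l → 𝓞 L)), Val v.asIdeal a α ∧
      Val v.asIdeal b β ∧ G.index ≠ 0 ∧
      G.index ≤ Ideal.absNorm v.asIdeal ^ ((α + β) * (l * (l - 1) / 2)) ∧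
      ∀ c ∈ G, ∀ (A : Type) [Ring A] [Algebra L A] (x y : A),
        Weyl l ζ (a : L)⁻¹ (b : L)⁻¹ x y → IntAt v (elt (fun i j => (c i j : L)) x y) := by
  sorry

/-- B4: the global subgroup (intersection of the local ones over the primes dividing `a b`;
`G = ⊤` at the others). -/
theorem glob_sub {L : Type} [Field L] [NumberField L] {l : ℕ} (hl : l.Prime) {ζ : L}
    (hζ : IsPrimitiveRoot ζ l) {a b : 𝓞 L} (ha : a ≠ 0) (hb : b ≠ 0)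
    (h : ∀ q : Ideal (𝓞 L), q.IsPrime → q ≠ ⊥ → a * b ∈ q → LC l q a b) :
    ∃ G : AddSubgroup (Fin l → Fin l → 𝓞 L), G.index ≠ 0 ∧
      G.index ≤ Ideal.absNorm (Ideal.span {a * b}) ^ (l * (l - 1) / 2) ∧
      ∀ c ∈ G, ∀ (A : Type) [Ring A] [Algebra L A] (x y : A),
        Weyl l ζ (a : L)⁻¹ (b : L)⁻¹ x y → ∀ v : HeightOneSpectrum (𝓞 L),
          IntAt v (elt (fun i j => (c i j : L)) x y) := by
  sorry

/-- B5: `exists_bal` with `l` for `2`. -/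
theorem exists_bal (L : Type*) [Field L] [NumberField L] {l : ℕ} (hl : 0 < l) :
    ∃ c : ℝ, 0 < c ∧ ∀ a : 𝓞 L, a ≠ 0 → ∃ η : 𝓞 L, η ≠ 0 ∧ Bal c (a * η ^ l) := by
  sorry

/-- B6: pigeonhole with the boxes `A i j = ⌊(N(a) ^ i N(b) ^ j) ^ (1 / (l n))⌋`. -/
theorem mink (L : Type*) [Field L] [NumberField L] {l : ℕ} (hl : l.Prime) {c : ℝ} (hc : 0 < c) :
    ∃ C : ℝ, 0 < C ∧ ∀ a b : 𝓞 L, a ≠ 0 → b ≠ 0 → Bal c a → Bal c b →
      ∀ G : AddSubgroup (Fin l → Fin l → 𝓞 L), G.index ≠ 0 →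
        G.index ≤ Ideal.absNorm (Ideal.span {a * b}) ^ (l * (l - 1) / 2) →
        ∃ d ∈ G, d ≠ 0 ∧ (∀ i j : Fin l, (i : ℕ) = 0 → (j : ℕ) = 0 → d i j = 0) ∧
          ∀ (φ : L →+* ℂ) (i j : Fin l), ‖φ (d i j)‖ ≤
            C * (‖φ a‖ ^ (1 / (l : ℝ))) ^ (i : ℕ) * (‖φ b‖ ^ (1 / (l : ℝ))) ^ (j : ℕ) := by
  sorry

/-- B7: eigenvalues at the archimedean places.  With the norm
`N f = ∑ i j, ‖a‖ ^ (- i / l) ‖b‖ ^ (- j / l) ‖x ^ i y ^ j f‖` one has `N (x f) = ‖a‖ ^ (1 / l) N f`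
and `N (y f) = ‖b‖ ^ (1 / l) N f`. -/
theorem arch {ι : Type*} [Fintype ι] [DecidableEq ι] {l : ℕ} (hl : 0 < l) {ζ a b : ℂ}
    (hζ : IsPrimitiveRoot ζ l) (ha : a ≠ 0) (hb : b ≠ 0) {x y : Matrix ι ι ℂ}
    (h : Weyl l ζ a b x y) (c : Fin l → Fin l → ℂ) {lam : ℂ} {f : ι → ℂ} (hf : f ≠ 0)
    (hlam : (elt c x y).mulVec f = lam • f) :
    ‖lam‖ ≤ ∑ i : Fin l, ∑ j : Fin l,
      ‖c i j‖ * (‖a‖ ^ (1 / (l : ℝ))) ^ (i : ℕ) * (‖b‖ ^ (1 / (l : ℝ))) ^ (j : ℕ) := by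
  sorry

/-- B8a: algebraic integers of bounded degree with bounded conjugates. -/
theorem fin_set (Ω : Type*) [Field Ω] [CharZero Ω] [Algebra.IsAlgebraic ℚ Ω] (D : ℕ) (B : ℝ) :
    {x : Ω | IsIntegral ℤ x ∧ (minpoly ℚ x).natDegree ≤ D ∧ ∀ ψ : Ω →+* ℂ, ‖ψ x‖ ≤ B}.Finite := by
  sorry

/-- B8b: integrality can be checked at all primes. -/
theorem integral_of_intAt {L Ω : Type*} [Field L] [NumberField L] [Field Ω] [Algebra L Ω] {x : Ω}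
    (h : ∀ v : HeightOneSpectrum (𝓞 L), IntAt v x) : IsIntegral ℤ x := by
  sorry

/-- B9a: `LC` does not see `l`-th powers. -/
theorem lc_mul {R : Type*} [CommRing R] [IsDedekindDomain R] {l : ℕ} (hl : 0 < l) {q : Ideal R}
    (hq : q.IsPrime) (hq0 : q ≠ ⊥) {a b η θ : R} (hη : η ≠ 0) (hθ : θ ≠ 0) (h : LC l q a b) :
    LC l q (a * η ^ l) (b * θ ^ l) := by
  sorry

/-- B9b -/
theorem lc_of_notMem {R : Type*} [CommRing R] {l : ℕ} {q : Ideal R} {a b : R} (ha : a ∉ q)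
    (hb : b ∉ q) : LC l q a b := by
  sorry

/-- B10 -/
theorem lc_of_harm {K L : Type*} [Field K] [NumberField K] [Field L] [NumberField L] [Algebra K L]
    {l J : ℕ} (hl : l.Prime) (hJ : 1 ≤ J) {ζ : L} (hζ : IsPrimitiveRoot ζ (l ^ J)) {a b : 𝓞 K}
    (ha : a ≠ 0) (hb : b ≠ 0) {q : Ideal (𝓞 L)} (hq : q.IsPrime) (hq0 : q ≠ ⊥)
    (h : Harm l J a b (q.comap (algebraMap (𝓞 K) (𝓞 L)))) :
    LC l q (algebraMap (𝓞 K) (𝓞 L) a) (algebraMap (𝓞 K) (𝓞 L) b) := by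
  sorry

end Pool.Agent.Helper3.CL
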