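import Pool.Agent.Helper3.CL.Defs

/-! Project CL: integrality at a prime. -/

set_option autoImplicit false

namespace Pool.Agent.Helper3.CL

open NumberField IsDedekindDomain

/-- an element of an algebra over `L` is integral at the prime `v` -/
def IntAt {L A : Type*} [Field L] [NumberField L] [Ring A] [Algebra L A]
    (v : HeightOneSpectrum (𝓞 L)) (x : A) : Prop :=
  ∃ p : Polynomial L, p.Monic ∧ (∀ n, v.valuation L (p.coeff n) ≤ 1) ∧ Polynomial.aeval x p = 0

end Pool.Agent.Helper3.CL
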