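import Pool.Agent.Helper18.CL.Defs

/-! Project CL: normal forms modulo the equations `nf (a i) (x i) = b i`. -/

set_option autoImplicit false

namespace Pool.Agent.Helper3.CL

open MvPolynomial Pool.Agent.Helper18.CL

section NF

variable {A : Type*} [CommRing A] {r : ℕ} (l : Fin r → ℕ) [∀ i, NeZero (l i)]

/-- the equations -/
noncomputable def eqnL (a b : Fin r → A) (i : Fin r) : MvPolynomial (Σ i, Fin (l i)) A :=
  nf (C (a i)) (fun j => X ⟨i, j⟩) - C (b i)

/-- the ideal -/
noncomputable def idL (a b : Fin r → A) : Ideal (MvPolynomial (Σ i, Fin (l i)) A) :=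
  Ideal.span (Set.range (eqnL l a b))

/-- the span of the reduced monomials -/
noncomputable def redL (A : Type*) [CommRing A] :
    Submodule A (MvPolynomial (Σ i, Fin (l i)) A) :=
  Submodule.span A {p | ∃ m : (Σ i, Fin (l i)) →₀ ℕ, (∀ i, m ⟨i, 0⟩ < l i) ∧ p = monomial m 1}

/-- lower terms of the norm form -/
noncomputable def lowL (A : Type*) [CommRing A] {τ : Type*} {n : ℕ} [NeZero n] (y : Fin n → τ) :
    Submodule A (MvPolynomial τ A) :=
  Submodule.span A {p | ∃ m : τ →₀ ℕ, m (y 0) < n ∧
    (∀ w, w ∉ Set.range y → m w = 0) ∧ p = monomial m 1}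

theorem nf_sub_mem {A τ : Type*} [CommRing A] {n : ℕ} [NeZero n] {y : Fin n → τ}
    (hy : Function.Injective y) (a : A) :
    nf (C a) (fun j => (X (y j) : MvPolynomial τ A)) - X (y 0) ^ n ∈ lowL A y := by
  classical
  unfold nf
  rw [Matrix.det_apply, ← Finset.add_sum_erase _ _ (Finset.mem_univ (1 : Equiv.Perm (Fin n)))]
  have h1 : ∏ p : Fin n, (Matrix.of fun p q : Fin n =>
      ((if p ≤ q then 1 else C a) * X (y (q - p)) : MvPolynomial τ A))
      ((1 : Equiv.Perm (Fin n)) p) p = X (y 0) ^ n := by
    simp
  rw [h1]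
  simp only [Equiv.Perm.sign_one, one_smul, add_sub_cancel_left]
  refine Submodule.sum_mem _ fun σ hσ => ?_
  have hσ1 : σ ≠ 1 := (Finset.mem_erase.1 hσ).1
  have hsign : ∀ q ∈ lowL A y, (Equiv.Perm.sign σ) • q ∈ lowL A y := by
    intro q hq
    rcases Int.units_eq_one_or (Equiv.Perm.sign σ) with h | h
    · rw [h, one_smul]
      exact hq
    · rw [h]
      have : (-1 : ℤˣ) • q = - q := by
        rw [Units.smul_def]
        simp
      rw [this]
      exact neg_mem hq
  apply hsign
  -- the product
  have hprod : ∏ p : Fin n, (Matrix.of fun p q : Fin n =>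
      ((if p ≤ q then 1 else C a) * X (y (q - p)) : MvPolynomial τ A)) (σ p) p =
      (∏ p : Fin n, if σ p ≤ p then (1 : A) else a) •
        monomial (∑ p : Fin n, Finsupp.single (y (p - σ p)) 1) 1 := by
    simp only [Matrix.of_apply]
    rw [Finset.prod_mul_distrib]
    have e1 : ∏ p : Fin n, (if σ p ≤ p then (1 : MvPolynomial τ A) else C a) =
        C (∏ p : Fin n, if σ p ≤ p then (1 : A) else a) := by
      rw [map_prod]
      refine Finset.prod_congr rfl fun p _ => ?_
      split_ifs <;> simp
    have e2 : ∏ p : Fin n, (X (y (p - σ p)) : MvPolynomial τ A) =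
        monomial (∑ p : Fin n, Finsupp.single (y (p - σ p)) 1) 1 := by
      rw [monomial_sum_one]
      rfl
    rw [e1, e2, smul_eq_C_mul]
  rw [hprod]
  refine Submodule.smul_mem _ _ (Submodule.subset_span ⟨_, ?_, ?_, rfl⟩)
  · rw [Finsupp.finsetSum_apply]
    obtain ⟨p0, hp0⟩ : ∃ p, σ p ≠ p := by
      by_contra hcon
      push Not at hcon
      exact hσ1 (Equiv.ext hcon)
    have h2 : ∀ p : Fin n, (Finsupp.single (y (p - σ p)) 1) (y 0) ≤ 1 := by
      intro p
      rw [Finsupp.single_apply]
      split_ifs <;> omega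
    have h3 : (Finsupp.single (y (p0 - σ p0)) 1) (y 0) = 0 := by
      rw [Finsupp.single_apply, if_neg]
      intro h
      exact hp0 (sub_eq_zero.1 (hy h)).symm
    calc _ < ∑ p : Fin n, 1 := Finset.sum_lt_sum (fun p _ => h2 p)
          ⟨p0, Finset.mem_univ _, by rw [h3]; omega⟩
      _ = n := by simp
  · intro w hw
    rw [Finsupp.finsetSum_apply]
    refine Finset.sum_eq_zero fun p _ => ?_
    rw [Finsupp.single_apply, if_neg]
    intro h
    exact hw ⟨_, h⟩

theorem mem_range_mk {r : ℕ} {l : Fin r → ℕ} {i : Fin r} {w : Σ i, Fin (l i)}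
    (h : w ∈ Set.range (fun j : Fin (l i) => (⟨i, j⟩ : Σ i, Fin (l i)))) : w.1 = i := by
  obtain ⟨j, rfl⟩ := h
  rfl

theorem exists_redL (a b : Fin r → A) (G : MvPolynomial (Σ i, Fin (l i)) A) :
    ∃ n ∈ redL l A, G - n ∈ idL l a b := by
  classical
  have hX : ∀ n ∈ redL l A, ∀ v : (Σ i, Fin (l i)), ∃ n' ∈ redL l A, n * X v - n' ∈ idL l a b := by
    intro n hn v
    induction hn using Submodule.span_induction with
    | mem x hx =>
      obtain ⟨m, hm, rfl⟩ := hx
      by_cases hcase : ∀ i, (m + Finsupp.single v 1 : (Σ i, Fin (l i)) →₀ ℕ) (⟨i, 0⟩ : Σ i, Fin (l i)) < l i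
      · refine ⟨monomial (m + Finsupp.single v 1) 1, Submodule.subset_span ⟨_, hcase, rfl⟩, ?_⟩
        have : monomial m (1 : A) * X v - monomial (m + Finsupp.single v 1) 1 = 0 := by
          rw [X, monomial_mul, one_mul, sub_self]
        rw [this]
        exact zero_mem _
      · push Not at hcase
        obtain ⟨i, hi⟩ := hcase
        have hmi := hm i
        rw [Finsupp.add_apply, Finsupp.single_apply] at hi
        have hv : v = ⟨i, 0⟩ := by
          by_contra hne
          rw [if_neg hne] at hi
          omega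
        rw [if_pos hv] at hi
        have hmi' : m ⟨i, 0⟩ + 1 = l i := by omega
        set m' := m.erase ⟨i, 0⟩ with hm'
        have hmm : m + Finsupp.single v 1 = Finsupp.single ⟨i, 0⟩ (l i) + m' := by
          rw [hv, hm']
          ext w
          by_cases hw : w = ⟨i, 0⟩
          · subst hw
            simp [hmi']
          · simp [Finsupp.erase_ne hw, Ne.symm hw]
        have hkey : monomial m (1 : A) * X v = X ⟨i, 0⟩ ^ (l i) * monomial m' 1 := by
          rw [X, monomial_mul, one_mul, hmm, X, monomial_pow, one_pow, monomial_mul, one_mul]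
          congr 2
          ext w
          simp [Finsupp.single_apply]
        let y : Fin (l i) → Σ i, Fin (l i) := fun j => ⟨i, j⟩
        have hy : Function.Injective y := fun j k h => eq_of_heq (Sigma.mk.inj h).2
        obtain ⟨R, hR⟩ : ∃ R : MvPolynomial (Σ i, Fin (l i)) A, R =
          nf (C (a i)) (fun j => (X (y j) : MvPolynomial (Σ i, Fin (l i)) A)) -
            X (y 0) ^ (l i) := ⟨_, rfl⟩
        have hRm : R ∈ lowL A y := by
          rw [hR]
          exact nf_sub_mem hy (a i)
        have hC : C (b i) ∈ lowL A y := by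
          have : (C (b i) : MvPolynomial (Σ i, Fin (l i)) A) = (b i) • monomial 0 1 := by
            rw [smul_eq_C_mul]
            simp
          rw [this]
          refine Submodule.smul_mem _ _ (Submodule.subset_span ⟨0, ?_, fun _ _ => rfl, rfl⟩)
          exact Nat.pos_of_ne_zero (NeZero.ne (l i))
        have hlow : ∀ p ∈ lowL A y, p * monomial m' 1 ∈ redL l A := by
          intro p hp
          induction hp using Submodule.span_induction with
          | mem x hx =>
            obtain ⟨u, hu1, hu2, rfl⟩ := hx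
            rw [monomial_mul, one_mul]
            refine Submodule.subset_span ⟨_, fun i' => ?_, rfl⟩
            rw [Finsupp.add_apply]
            by_cases hii : i' = i
            · subst hii
              rw [hm', Finsupp.erase_same]
              exact hu1
            · rw [hu2 _ (fun h => hii (mem_range_mk h)), hm', Finsupp.erase_ne]
              · have := hm i'
                omega
              · intro h
                exact hii (Sigma.mk.inj h).1
          | zero => rw [zero_mul]; exact zero_mem _
          | add x y _ _ hx hy => rw [add_mul]; exact add_mem hx hy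
          | smul c x _ hx => rw [smul_mul_assoc]; exact Submodule.smul_mem _ _ hx
        refine ⟨(C (b i) - R) * monomial m' 1, hlow _ (sub_mem hC hRm), ?_⟩
        have h1 : eqnL l a b i ∈ idL l a b := Ideal.subset_span ⟨i, rfl⟩
        have h2 := Ideal.mul_mem_right (monomial m' (1 : A)) _ h1
        rw [hkey]
        convert h2 using 1
        rw [hR]
        unfold eqnL
        ring
    | zero => exact ⟨0, zero_mem _, by simp⟩
    | add x y _ _ hx hy =>
      obtain ⟨n1, h1, h1'⟩ := hx
      obtain ⟨n2, h2, h2'⟩ := hy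
      refine ⟨n1 + n2, add_mem h1 h2, ?_⟩
      convert add_mem h1' h2' using 1
      ring
    | smul c x _ hx =>
      obtain ⟨n1, h1, h1'⟩ := hx
      refine ⟨c • n1, Submodule.smul_mem _ _ h1, ?_⟩
      have h2 := Ideal.mul_mem_left _ (C c) h1'
      convert h2 using 1
      rw [smul_eq_C_mul, smul_eq_C_mul]
      ring
  induction G using MvPolynomial.induction_on with
  | C c =>
    refine ⟨c • monomial 0 1, Submodule.smul_mem _ _ (Submodule.subset_span ⟨0, ?_, rfl⟩), ?_⟩
    · intro i
      exact Nat.pos_of_ne_zero (NeZero.ne (l i))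
    · have : (C c : MvPolynomial (Σ i, Fin (l i)) A) - c • monomial 0 1 = 0 := by
        rw [smul_eq_C_mul]
        simp
      rw [this]
      exact zero_mem _
  | add p q hp hq =>
    obtain ⟨n1, h1, h1'⟩ := hp
    obtain ⟨n2, h2, h2'⟩ := hq
    refine ⟨n1 + n2, add_mem h1 h2, ?_⟩
    convert add_mem h1' h2' using 1
    ring
  | mul_X p v hp =>
    obtain ⟨n1, h1, h1'⟩ := hp
    obtain ⟨n2, h2, h2'⟩ := hX n1 h1 v
    refine ⟨n2, h2, ?_⟩
    convert add_mem (Ideal.mul_mem_right (X v) _ h1') h2' using 1
    ring

/-- the monomials of a reduced polynomial are reduced -/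
theorem mem_redL {n : MvPolynomial (Σ i, Fin (l i)) A} (hn : n ∈ redL l A)
    {m : (Σ i, Fin (l i)) →₀ ℕ} (hm : m ∈ n.support) (i : Fin r) : m ⟨i, 0⟩ < l i := by
  classical
  have h : redL l A ≤ Submodule.span A {p | ∃ m : (Σ i, Fin (l i)) →₀ ℕ,
      (∀ i, m ⟨i, 0⟩ < l i) ∧ p = monomial m 1} := le_rfl
  have key : ∀ n ∈ redL l A, ∀ m : (Σ i, Fin (l i)) →₀ ℕ, coeff m n ≠ 0 → ∀ i, m ⟨i, 0⟩ < l i := by
    intro n hn
    induction hn using Submodule.span_induction with
    | mem x hx =>
      obtain ⟨u, hu, rfl⟩ := hx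
      intro m hm
      rw [coeff_monomial] at hm
      have : u = m := by
        by_contra hne
        rw [if_neg hne] at hm
        exact hm rfl
      rw [← this]
      exact hu
    | zero =>
      intro m hm
      simp at hm
    | add x y _ _ hx hy =>
      intro m hm
      rw [coeff_add] at hm
      by_cases h1 : coeff m x = 0
      · rw [h1, zero_add] at hm
        exact hy m hm
      · exact hx m h1
    | smul c x _ hx =>
      intro m hm
      rw [coeff_smul, smul_eq_mul] at hm
      exact hx m (right_ne_zero_of_mul hm)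
  exact key n hn m (mem_support_iff.1 hm) i

end NF

end Pool.Agent.Helper3.CL
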