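import Mathlib

/-! Project CL: products of linearly independent families of functions. -/

set_option autoImplicit false

namespace Pool.Agent.Helper3.CL

/-- Products of linearly independent families of functions are linearly independent. -/
theorem prod_indep {L ι : Type*} [Field L] [Fintype ι] [DecidableEq ι] {E X : ι → Type*}
    (S : ∀ i, Set (E i)) (f : ∀ i, E i → X i → L)
    (h : ∀ i (t : Finset (E i)) (c : E i → L), (∀ e ∈ t, e ∈ S i) →
      (∀ x, ∑ e ∈ t, c e * f i e x = 0) → ∀ e ∈ t, c e = 0)
    (s : Finset (∀ i, E i)) (c : (∀ i, E i) → L) (hs : ∀ m ∈ s, ∀ i, m i ∈ S i)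
    (h0 : ∀ x : ∀ i, X i, ∑ m ∈ s, c m * ∏ i, f i (m i) (x i) = 0)
    (hX : ∀ i, Nonempty (X i))
    (μ : ∀ i, E i) (hμ : μ ∈ s) : c μ = 0 := by
  classical
  have key : ∀ (T : Finset ι) (x : ∀ i, X i),
      ∑ m ∈ s with (∀ i ∈ T, m i = μ i), c m * ∏ i ∈ Tᶜ, f i (m i) (x i) = 0 := by
    intro T
    induction T using Finset.induction_on with
    | empty =>
      intro x
      simpa using h0 x
    | insert j T hj ih =>
      intro x
      set sT : Finset (∀ i, E i) := s.filter (fun m => ∀ i ∈ T, m i = μ i) with hsT
      set G : (∀ i, E i) → L := fun m => c m * ∏ i ∈ (insert j T)ᶜ, f i (m i) (x i) with hG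
      have h1 : ∀ t : X j, ∑ m ∈ sT, G m * f j (m j) t = 0 := by
        intro t
        have h2 := ih (Function.update x j t)
        rw [← h2]
        refine Finset.sum_congr rfl fun m _ => ?_
        have h3 : Tᶜ = insert j (insert j T)ᶜ := by
          ext i
          simp only [Finset.mem_compl, Finset.mem_insert, not_or]
          constructor
          · intro hi
            by_cases hij : i = j
            · exact Or.inl hij
            · exact Or.inr ⟨hij, hi⟩
          · rintro (rfl | hi)
            · exact hj
            · exact hi.2
        have h4 : j ∉ (insert j T)ᶜ := by simp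
        rw [h3, Finset.prod_insert h4, Function.update_self]
        have h5 : ∏ i ∈ (insert j T)ᶜ, f i (m i) (Function.update x j t i) =
            ∏ i ∈ (insert j T)ᶜ, f i (m i) (x i) := by
          refine Finset.prod_congr rfl fun i hi => ?_
          have : i ≠ j := by
            rintro rfl
            exact h4 hi
          rw [Function.update_of_ne this]
        rw [h5]
        simp only [hG]
        ring
      have h6 : ∀ t : X j, ∑ e ∈ sT.image (fun m => m j),
          (∑ m ∈ sT with m j = e, G m) * f j e t = 0 := by
        intro t
        rw [← h1 t]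
        rw [← Finset.sum_fiberwise_of_maps_to (s := sT) (t := sT.image (fun m => m j))
          (g := fun m => m j) (fun m hm => Finset.mem_image_of_mem _ hm)]
        refine Finset.sum_congr rfl fun e _ => ?_
        rw [Finset.sum_mul]
        refine Finset.sum_congr rfl fun m hm => ?_
        rw [(Finset.mem_filter.1 hm).2]
      have hμT : μ ∈ sT := Finset.mem_filter.2 ⟨hμ, fun _ _ => rfl⟩
      have h7 := h j (sT.image (fun m => m j)) (fun e => ∑ m ∈ sT with m j = e, G m)
        (by
          intro e he
          obtain ⟨m, hm, rfl⟩ := Finset.mem_image.1 he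
          exact hs m (Finset.mem_filter.1 hm).1 j) h6 (μ j)
        (Finset.mem_image.2 ⟨μ, hμT, rfl⟩)
      have h8 : s.filter (fun m => ∀ i ∈ insert j T, m i = μ i) =
          sT.filter (fun m => m j = μ j) := by
        ext m
        simp only [hsT, Finset.mem_filter, Finset.mem_insert, forall_eq_or_imp]
        tauto
      rw [h8]
      exact h7
  have h9 := key Finset.univ (fun i => (hX i).some)
  have h10 : s.filter (fun m => ∀ i ∈ Finset.univ, m i = μ i) = {μ} := by
    ext m
    simp only [Finset.mem_filter, Finset.mem_univ, forall_true_left, Finset.mem_singleton]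
    constructor
    · rintro ⟨_, h⟩
      exact funext h
    · rintro rfl
      exact ⟨hμ, fun _ => rfl⟩
  rw [h10] at h9
  simpa using h9

end Pool.Agent.Helper3.CL
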