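import Pool.Agent.Helper3.CL.FibL
import Pool.Agent.Helper3.CL.ProdInd

/-! Project CL: separation of functions on a family of products of norm hypersurfaces. -/

set_option autoImplicit false

namespace Pool.Agent.Helper3.CL

open MvPolynomial Pool.Agent.Helper18.CL

theorem map_nf {R S : Type*} [CommRing R] [CommRing S] (f : R →+* S) {n : ℕ} [NeZero n] (a : R)
    (x : Fin n → R) : f (nf a x) = nf (f a) (fun j => f (x j)) := by
  unfold nf
  rw [RingHom.map_det]
  congr 1
  ext p q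
  simp only [RingHom.mapMatrix_apply, Matrix.map_apply, Matrix.of_apply, map_mul]
  split_ifs <;> simp

/-- Separation of functions by points. -/
theorem separateL {K M L A : Type} [Field K] [Field M] [Field L] [Algebra K M] [Algebra M L]
    [Algebra K L] [IsScalarTower K M L] [CharZero L] [CommRing A] [Algebra K A] {r : ℕ}
    (l : Fin r → ℕ) [∀ i, NeZero (l i)] (hl : ∀ i, (l i).Prime)
    (hζ : ∀ i, ∃ ζ : L, IsPrimitiveRoot ζ (l i)) (a b : Fin r → A)
    (H : ∀ d : A, d ≠ 0 → ∃ φ : A →ₐ[K] M, φ d ≠ 0 ∧ ∀ i, φ (a i) ≠ 0 ∧ φ (b i) ≠ 0 ∧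
      ∃ x : Fin (l i) → L, nf (algebraMap M L (φ (a i))) x = algebraMap M L (φ (b i)))
    (g : MvPolynomial (Σ i, Fin (l i)) A ⧸ idL l a b)
    (hg : ∀ ψ : (MvPolynomial (Σ i, Fin (l i)) A ⧸ idL l a b) →ₐ[K] L, ψ g = 0) : g = 0 := by
  classical
  obtain ⟨G, rfl⟩ := Ideal.Quotient.mk_surjective g
  obtain ⟨n, hn, hGn⟩ := exists_redL l a b G
  by_cases hn0 : n = 0
  · rw [hn0, sub_zero] at hGn
    exact Ideal.Quotient.eq_zero_iff_mem.2 hGn
  exfalso
  obtain ⟨m0, hm0⟩ := ne_zero_iff.1 hn0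
  obtain ⟨φ, hφ, hφi⟩ := H _ hm0
  set σ : A →+* L := (algebraMap M L).comp (φ : A →+* M) with hσ
  have hinj : Function.Injective (algebraMap M L) := (algebraMap M L).injective
  have hσ0 : ∀ c : A, φ c ≠ 0 → σ c ≠ 0 := by
    intro c hc
    show algebraMap M L (φ c) ≠ 0
    rwa [Ne, map_eq_zero_iff _ hinj]
  set e : ((Σ i, Fin (l i)) →₀ ℕ) ≃ ∀ i, Fin (l i) →₀ ℕ := Finsupp.sigmaFinsuppEquivPiFinsupp
    with he
  have hee : ∀ m i j, e m i j = m ⟨i, j⟩ := fun m i j => rfl
  have key := prod_indep (L := L) (E := fun i => Fin (l i) →₀ ℕ)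
    (X := fun i => {x : Fin (l i) → L // nf (σ (a i)) x = σ (b i)})
    (fun i => {u | u 0 < l i}) (fun i u x => ∏ j, x.1 j ^ u j)
    (fun i t c ht h0 => by
      obtain ⟨ζ, hζi⟩ := hζ i
      exact fibre_indep L (l i) (hl i) ζ hζi (σ (a i)) (σ (b i)) (hσ0 _ (hφi i).1)
        (hσ0 _ (hφi i).2.1) (hφi i).2.2 t c ht h0)
    (n.support.map e.toEmbedding) (fun μ => σ (coeff (e.symm μ) n))
    (by
      intro μ hμ i
      obtain ⟨m, hm, rfl⟩ := Finset.mem_map.1 hμ
      exact mem_redL l hn hm i)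
    (by
      intro x
      rw [Finset.sum_map]
      -- the point
      set ψ0 : MvPolynomial (Σ i, Fin (l i)) A →+* L :=
        eval₂Hom σ (fun v => (x v.1).1 v.2) with hψ0
      have eX : ∀ v, ψ0 (X v) = (x v.1).1 v.2 := fun v => by simp [hψ0]
      have eC : ∀ c, ψ0 (C c) = σ c := fun c => by simp [hψ0]
      have hker : ∀ p ∈ idL l a b, ψ0 p = 0 := by
        intro p hp
        have h1 : idL l a b ≤ RingHom.ker ψ0 := by
          refine Ideal.span_le.2 ?_
          rintro _ ⟨i, rfl⟩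
          show ψ0 (eqnL l a b i) = 0
          unfold eqnL
          rw [map_sub, map_nf, eC, eC]
          simp only [eX]
          rw [(x i).2, sub_self]
        exact h1 hp
      have hcomm : ∀ k : K, ψ0 (algebraMap K (MvPolynomial (Σ i, Fin (l i)) A) k) =
          algebraMap K L k := by
        intro k
        have h1 : algebraMap K (MvPolynomial (Σ i, Fin (l i)) A) k = C (algebraMap K A k) := rfl
        rw [h1, eC]
        show algebraMap M L (φ (algebraMap K A k)) = _
        rw [φ.commutes, ← IsScalarTower.algebraMap_apply K M L]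
      let ψ : (MvPolynomial (Σ i, Fin (l i)) A ⧸ idL l a b) →ₐ[K] L :=
        { Ideal.Quotient.lift (idL l a b) ψ0 hker with
          commutes' := fun k => by
            show Ideal.Quotient.lift (idL l a b) ψ0 hker
              (Ideal.Quotient.mk _ (algebraMap K (MvPolynomial (Σ i, Fin (l i)) A) k)) = _
            rw [Ideal.Quotient.lift_mk, hcomm] }
      have hG0 : ψ0 G = 0 := hg ψ
      have h1 := hker _ hGn
      rw [map_sub, hG0, zero_sub, neg_eq_zero, hψ0, coe_eval₂Hom, eval₂_eq'] at h1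
      rw [← h1]
      refine Finset.sum_congr rfl fun m _ => ?_
      rw [Fintype.prod_sigma]
      simp only [Equiv.coe_toEmbedding, Equiv.symm_apply_apply, hee])
    (fun i => by
      obtain ⟨x, hx⟩ := (hφi i).2.2
      exact ⟨⟨x, hx⟩⟩)
    (e m0) (Finset.mem_map.2 ⟨m0, mem_support_iff.2 hm0, rfl⟩)
  simp only [Equiv.symm_apply_apply] at key
  exact hσ0 _ hφ key

end Pool.Agent.Helper3.CL
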