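import Pool.Agent.Helper3.CL.IntDef
import Pool.Agent.Helper69.SB.Int

/-! Project CL: the standard Weyl pair. -/

set_option autoImplicit false

namespace Pool.Agent.Helper3.CL

open Matrix Pool.Agent.Helper69.SB

variable {E : Type*} [Field E] {l : ℕ} [NeZero l]

/-- the cyclic shift -/
def Pm (E : Type*) [Field E] (l : ℕ) : Matrix (Fin l) (Fin l) E :=
  Matrix.of fun p q => if (q : ℕ) = ((p : ℕ) + 1) % l then 1 else 0

/-- the clock -/
def Dm {E : Type*} [Field E] (ζ : E) (l : ℕ) : Matrix (Fin l) (Fin l) E :=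
  Matrix.diagonal fun p => ζ ^ (p : ℕ)

theorem Pm_pow (i : ℕ) : (Pm E l) ^ i =
    Matrix.of fun p q : Fin l => if (q : ℕ) = ((p : ℕ) + i) % l then (1 : E) else 0 := by
  induction i with
  | zero =>
    ext p q
    rw [pow_zero, Matrix.one_apply, Matrix.of_apply, add_zero, Nat.mod_eq_of_lt p.2]
    by_cases h : p = q
    · subst h
      simp
    · have : ¬ (q : ℕ) = p := fun h' => h (Fin.ext h'.symm)
      simp [h, this]
  | succ i ih =>
    ext p q
    rw [pow_succ, ih, Matrix.mul_apply]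
    have hl : 0 < l := Nat.pos_of_ne_zero (NeZero.ne l)
    rw [Finset.sum_eq_single (⟨((p : ℕ) + i) % l, Nat.mod_lt _ hl⟩ : Fin l)]
    · simp only [Pm, Matrix.of_apply, if_true, one_mul]
      rw [Nat.mod_add_mod, add_assoc]
    · intro m _ hm
      rw [Matrix.of_apply, if_neg, zero_mul]
      intro h
      exact hm (Fin.ext h)
    · intro h
      exact absurd (Finset.mem_univ _) h

omit [NeZero l] in
theorem Dm_pow (ζ : E) (j : ℕ) : (Dm ζ l) ^ j = Matrix.diagonal fun p : Fin l => ζ ^ ((p : ℕ) * j) := by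
  unfold Dm
  rw [Matrix.diagonal_pow]
  congr 1
  ext p
  rw [Pi.pow_apply, ← pow_mul]

omit [NeZero l] in
theorem pow_mod_l {ζ : E} (hζ : ζ ^ l = 1) (n : ℕ) : ζ ^ (n % l) = ζ ^ n :=
  (pow_eq_pow_mod n hζ).symm

theorem weyl_std {F : Type*} [Field F] [Algebra F E] {ζ a b : F} (hζ : ζ ^ l = 1) {α β : E}
    (hα : α ^ l = algebraMap F E a) (hβ : β ^ l = algebraMap F E b) :
    Weyl l ζ a b (α • Pm E l) (β • Dm (algebraMap F E ζ) l) := by
  have hζ' : (algebraMap F E ζ) ^ l = 1 := by rw [← map_pow, hζ, map_one]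
  have hl : 0 < l := Nat.pos_of_ne_zero (NeZero.ne l)
  refine ⟨?_, ?_, ?_⟩
  · rw [smul_pow, Pm_pow, hα]
    ext p q
    rw [Matrix.smul_apply, Matrix.of_apply, Nat.add_mod_right, Nat.mod_eq_of_lt p.2,
      Matrix.algebraMap_matrix_apply]
    by_cases h : p = q
    · subst h
      simp
    · have : ¬ (q : ℕ) = p := fun h' => h (Fin.ext h'.symm)
      simp [h, this]
  · rw [smul_pow, Dm_pow, hβ]
    ext p q
    rw [Matrix.smul_apply, Matrix.diagonal_apply, Matrix.algebraMap_matrix_apply]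
    by_cases h : p = q
    · subst h
      rw [if_pos rfl, if_pos rfl, mul_comm, pow_mul, hζ', one_pow]
      simp
    · simp [h]
  · ext p q
    have key : (Pm E l * Dm (algebraMap F E ζ) l) p q =
        (algebraMap F E ζ) * (Dm (algebraMap F E ζ) l * Pm E l) p q := by
      unfold Dm
      rw [Matrix.mul_diagonal, Matrix.diagonal_mul]
      unfold Pm
      rw [Matrix.of_apply]
      by_cases h : (q : ℕ) = ((p : ℕ) + 1) % l
      · rw [if_pos h, one_mul, mul_one, h, pow_mod_l hζ', pow_succ']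
      · rw [if_neg h]
        simp
    rw [Matrix.smul_apply, smul_mul_smul_comm, smul_mul_smul_comm, Matrix.smul_apply,
      Matrix.smul_apply, mul_comm β α, key, Algebra.smul_def ζ, smul_eq_mul, smul_eq_mul]
    ring

theorem elt_std {F : Type*} [Field F] [Algebra F E] {ζ : F} (hζ : ζ ^ l = 1) (α β : E)
    (c : Fin l → Fin l → F) :
    elt c (α • Pm E l) (β • Dm (algebraMap F E ζ) l) =
      Pool.Agent.Helper69.SB.mt (algebraMap F E ζ) α β
        (fun i j => (algebraMap F E ζ) ^ ((i : ℕ) * (j : ℕ)) * algebraMap F E (c i j)) := by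
  have hζ' : (algebraMap F E ζ) ^ l = 1 := by rw [← map_pow, hζ, map_one]
  have hl : 0 < l := Nat.pos_of_ne_zero (NeZero.ne l)
  ext p q
  unfold elt Pool.Agent.Helper69.SB.mt xr
  rw [Matrix.sum_apply, Finset.sum_eq_single (q - p : Fin l)]
  · rw [Matrix.sum_apply, Finset.mul_sum]
    refine Finset.sum_congr rfl fun j _ => ?_
    rw [Matrix.smul_apply, smul_pow, smul_pow, smul_mul_smul_comm, Matrix.smul_apply, Dm_pow,
      Matrix.mul_diagonal, Pm_pow, Matrix.of_apply, if_pos, one_mul, Algebra.smul_def, smul_eq_mul]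
    · have h1 : (algebraMap F E ζ) ^ ((q : ℕ) * (j : ℕ)) =
          (algebraMap F E ζ) ^ (((q - p : Fin l) : ℕ) * (j : ℕ)) *
            ((algebraMap F E ζ) ^ (p : ℕ)) ^ (j : ℕ) := by
        rw [pow_mul, pow_mul, ← mul_pow, ← pow_fin_add hζ', sub_add_cancel]
      rw [h1, mul_pow]
      ring
    · have h2 : ((p + (q - p) : Fin l) : ℕ) = ((p : ℕ) + ((q - p : Fin l) : ℕ)) % l := Fin.val_add _ _
      rw [← h2, add_sub_cancel]
  · intro i _ hi
    rw [Matrix.sum_apply]
    refine Finset.sum_eq_zero fun j _ => ?_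
    rw [Matrix.smul_apply, smul_pow, smul_pow, smul_mul_smul_comm, Matrix.smul_apply, Dm_pow,
      Matrix.mul_diagonal, Pm_pow, Matrix.of_apply, if_neg, zero_mul, smul_zero, smul_zero]
    intro h
    apply hi
    have h2 : ((p + i : Fin l) : ℕ) = ((p : ℕ) + (i : ℕ)) % l := Fin.val_add _ _
    rw [← h2] at h
    have h3 : q = p + i := Fin.ext h
    rw [h3, add_sub_cancel_left]
  · intro h
    exact absurd (Finset.mem_univ _) h

end Pool.Agent.Helper3.CL
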